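import Mathlib

/-!
# MP_4a8fbb_co: the icosahedron and the dodecahedron can be enlarged by leapfrog jumps

Twelve pieces at the vertices of a regular icosahedron (twenty pieces at the vertices of a regular
dodecahedron) can be moved by finitely many jumps `p_i ↦ 2 p_j - p_i` onto the vertices of a
similar copy, larger by the factor `φ ^ 6 = 9 + 4 √5`.

Both solids are centrally symmetric.  Label the vertices by `(i, ±1)`, at `± c i`.  Two jumps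
(`(i, 1)` over `(j, w)` and `(i, -1)` over `(j, -w)`) keep this symmetric shape and replace
`c i` by `2 w c j - c i`; up to exchanging the two pieces of a pair this is
`c i ↦ c i ∓ 2 c j`.  The two lists of elementary operations below carry `c` to `φ^6 c`; they are
checked in the lattice `ℤ[φ]^3 = ℤ^6` by computation.
-/

namespace Pool.Agent.Results.MP_4a8fbb_co.BothEnlarge

open Relation

/-- Euclidean three-space. -/
abbrev E3 := EuclideanSpace ℝ (Fin 3)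

/-- A legal move (a jump): a piece `i` moves to the point reflection of its position through the
position of another piece `j`; all the other pieces stay where they are. -/
def Move {ι V : Type*} [AddCommGroup V] (p p' : ι → V) : Prop :=
  ∃ i j, i ≠ j ∧ p' i = 2 • p j - p i ∧ ∀ k, k ≠ i → p' k = p k

/-- `σ` is a similarity of `ℝ³` with ratio `r`. -/
def IsSimilarity (r : ℝ) (σ : E3 → E3) : Prop :=
  0 < r ∧ ∀ x y, dist (σ x) (σ y) = r * dist x y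

/-- The vertex set `T` can be enlarged: starting with one piece at each point of `T`, some finite
sequence of legal moves ends with the pieces at the points of `σ(T)`, `σ` a similarity with
ratio larger than one. -/
def CanBeEnlarged (T : Set E3) : Prop :=
  ∃ p : T → E3, ReflTransGen Move (Subtype.val : T → E3) p ∧
    ∃ (r : ℝ) (σ : E3 → E3), 1 < r ∧ IsSimilarity r σ ∧ Function.Injective p ∧
      Set.range p = σ '' T

/-- The golden ratio `(1 + √5) / 2`. -/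
noncomputable def φ : ℝ := (1 + √5) / 2

theorem phi_eq : φ = Real.goldenRatio := rfl

/-- The vertices `(0, ±1, ±φ), (±1, ±φ, 0), (±φ, 0, ±1)` of a regular icosahedron. -/
def stdIcosahedron : Set E3 :=
  {x | ∃ s t : ℝ, (s = 1 ∨ s = -1) ∧ (t = 1 ∨ t = -1) ∧
    (x = !₂[0, s, t * φ] ∨ x = !₂[s, t * φ, 0] ∨ x = !₂[t * φ, 0, s])}

/-- The vertices `(±1, ±1, ±1)` and `(0, ±φ⁻¹, ±φ), (±φ⁻¹, ±φ, 0), (±φ, 0, ±φ⁻¹)` of a regular
dodecahedron. -/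
def stdDodecahedron : Set E3 :=
  {x | (∃ r s t : ℝ, (r = 1 ∨ r = -1) ∧ (s = 1 ∨ s = -1) ∧ (t = 1 ∨ t = -1) ∧
      x = !₂[r, s, t]) ∨
    ∃ s t : ℝ, (s = 1 ∨ s = -1) ∧ (t = 1 ∨ t = -1) ∧
      (x = !₂[0, s * φ⁻¹, t * φ] ∨ x = !₂[s * φ⁻¹, t * φ, 0] ∨ x = !₂[t * φ, 0, s * φ⁻¹])}

/-- `T` is the vertex set of a regular icosahedron. -/
def IsRegularIcosahedron (T : Set E3) : Prop :=
  ∃ r σ, IsSimilarity r σ ∧ T = σ '' stdIcosahedron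

/-- `T` is the vertex set of a regular dodecahedron. -/
def IsRegularDodecahedron (T : Set E3) : Prop :=
  ∃ r σ, IsSimilarity r σ ∧ T = σ '' stdDodecahedron

/-! ### Symmetric configurations -/

section Sym

variable {ι V : Type*} [AddCommGroup V]

/-- The symmetric configuration `± c i`. -/
def q (c : ι → V) : ι × ℤˣ → V := fun a => a.2 • c a.1

theorem units_cases (u : ℤˣ) : u = 1 ∨ u = -1 := Int.units_eq_one_or u

/-- two jumps -/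
theorem double_move [DecidableEq ι] (c : ι → V) {i j : ι} (h : i ≠ j) (w : ℤˣ) :
    ReflTransGen Move (q c) (q (Function.update c i (2 • (w • c j) - c i))) := by
  classical
  set p1 : ι × ℤˣ → V := Function.update (q c) (i, 1) (2 • q c (j, w) - q c (i, 1)) with hp1
  have h1 : Move (q c) p1 := by
    refine ⟨(i, 1), (j, w), ?_, ?_, ?_⟩
    · intro h'; exact h (congrArg Prod.fst h')
    · rw [hp1, Function.update_self]
    · intro k hk; rw [hp1, Function.update_of_ne hk]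
  refine (ReflTransGen.single h1).tail ?_
  have e1 : p1 (j, -w) = -(w • c j) := by
    rw [hp1, Function.update_of_ne]
    · simp only [q]
      rw [Units.neg_smul]
    · intro h'; exact h (congrArg Prod.fst h').symm
  have e2 : p1 (i, -1) = -(c i) := by
    rw [hp1, Function.update_of_ne]
    · simp [q]
    · intro h'
      have h2 : (-1 : ℤˣ) = 1 := congrArg Prod.snd h'
      exact absurd h2 (by decide)
  refine ⟨(i, -1), (j, -w), ?_, ?_, ?_⟩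
  · intro h'; exact h (congrArg Prod.fst h')
  · rw [e1, e2]
    simp only [q, Function.update_self]
    rw [Units.neg_smul, one_smul]
    simp only [smul_neg]
    abel
  · rintro ⟨k, u⟩ hk
    by_cases hki : k = i
    · subst hki
      rcases units_cases u with rfl | rfl
      · rw [hp1, Function.update_self]
        simp [q]
      · exact absurd rfl hk
    · rw [hp1, Function.update_of_ne]
      · simp only [q]
        rw [Function.update_of_ne hki]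
      · intro h'; exact hki (congrArg Prod.fst h')

/-- `c` can be carried to `c'`, up to exchanging the pieces of the pairs. -/
def PR (c c' : ι → V) : Prop :=
  ∃ s : ι → ℤˣ, ReflTransGen Move (q c) (q (fun i => s i • c' i))

theorem PR.refl (c : ι → V) : PR c c := by
  refine ⟨fun _ => 1, ?_⟩
  simp only [one_smul]
  exact ReflTransGen.refl

theorem PR.step [DecidableEq ι] {c c' : ι → V} (H : PR c c') {i j : ι} (h : i ≠ j) (w : ℤˣ) :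
    PR c (Function.update c' i (c' i - 2 • (w • c' j))) := by
  obtain ⟨s, hs⟩ := H
  refine ⟨Function.update s i (-(s i)), ?_⟩
  have h2 := double_move (fun k => s k • c' k) h (w * s i * s j)
  have h3 := hs.trans h2
  convert h3 using 2
  funext k
  by_cases hk : k = i
  · subst hk
    rw [Function.update_self, Function.update_self, Function.update_self]
    have e : (w * s k * s j) • s j • c' j = s k • w • c' j := by
      rw [smul_smul, smul_smul]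
      congr 1
      rcases units_cases (s j) with h | h <;> rw [h] <;> simp [mul_comm]
    rw [e, Units.neg_smul, smul_sub, smul_comm (s k) (2 : ℕ)]
    abel
  · rw [Function.update_of_ne hk, Function.update_of_ne hk, Function.update_of_ne hk]

theorem PR.nat_step [DecidableEq ι] {c c' : ι → V} (H : PR c c') {i j : ι} (h : i ≠ j) (w : ℤˣ)
    (k : ℕ) : PR c (Function.update c' i (c' i - (2 * k) • (w • c' j))) := by
  induction k with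
  | zero => simpa using H
  | succ k ih =>
      have := ih.step h w
      convert this using 1
      funext t
      by_cases ht : t = i
      · subst ht
        rw [Function.update_self, Function.update_self, Function.update_self,
          Function.update_of_ne h.symm]
        rw [show 2 * (k + 1) = 2 * k + 2 by ring, add_smul]
        abel
      · rw [Function.update_of_ne ht, Function.update_of_ne ht, Function.update_of_ne ht]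

theorem PR.int_step [DecidableEq ι] {c c' : ι → V} (H : PR c c') {i j : ι} (h : i ≠ j)
    (k : ℤ) : PR c (Function.update c' i (c' i + (2 * k) • c' j)) := by
  obtain ⟨n, rfl | rfl⟩ := k.eq_nat_or_neg
  · have := H.nat_step h (-1) n
    convert this using 3
    rw [Units.neg_smul, one_smul, smul_neg, sub_neg_eq_add]
    congr 1
    rw [← natCast_zsmul]
    push_cast
    rfl
  · have := H.nat_step h 1 n
    convert this using 3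
    rw [one_smul, sub_eq_add_neg]
    congr 1
    rw [← natCast_zsmul, ← neg_zsmul]
    congr 1
    push_cast
    ring

end Sym

/-! ### Computation in `ℤ[φ]³` -/

/-- `ℤ[φ]³`; `(a, a', b, b', c, c')` stands for `(a + a' φ, b + b' φ, c + c' φ)`. -/
abbrev W := ℤ × ℤ × ℤ × ℤ × ℤ × ℤ

/-- `x + 2 k y` -/
def addk (k : ℤ) (x y : W) : W :=
  (x.1 + 2 * k * y.1, x.2.1 + 2 * k * y.2.1, x.2.2.1 + 2 * k * y.2.2.1,
    x.2.2.2.1 + 2 * k * y.2.2.2.1, x.2.2.2.2.1 + 2 * k * y.2.2.2.2.1,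
    x.2.2.2.2.2 + 2 * k * y.2.2.2.2.2)

theorem addk_eq (k : ℤ) (x y : W) : addk k x y = x + (2 * k) • y := by
  obtain ⟨a, b, c, d, e, f⟩ := x
  obtain ⟨a', b', c', d', e', f'⟩ := y
  simp [addk]

/-- multiplication by `φ^6 = 5 + 8 φ` -/
def mulL (x : W) : W :=
  (5 * x.1 + 8 * x.2.1, 8 * x.1 + 13 * x.2.1,
   5 * x.2.2.1 + 8 * x.2.2.2.1, 8 * x.2.2.1 + 13 * x.2.2.2.1,
   5 * x.2.2.2.2.1 + 8 * x.2.2.2.2.2, 8 * x.2.2.2.2.1 + 13 * x.2.2.2.2.2)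

/-- The checker: every entry of the list is the result of its operation applied to the previous
state. -/
def check {n : ℕ} : (Fin n → W) → List ((Fin n × Fin n × ℤ) × (Fin n → W)) → (Fin n → W) → Bool
  | c, [], c' => decide (∀ t, c t = c' t)
  | c, (o, c1) :: l, c' =>
      decide (o.1 ≠ o.2.1) &&
      decide (∀ t, c1 t = if t = o.1 then addk o.2.2 (c o.1) (c o.2.1) else c t) &&
      check c1 l c'

theorem check_sound {n : ℕ} (l : List ((Fin n × Fin n × ℤ) × (Fin n → W))) :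
    ∀ c0 c c' : Fin n → W, PR c0 c → check c l c' = true → PR c0 c' := by
  induction l with
  | nil =>
      intro c0 c c' h hc
      have : c = c' := funext (by simpa [check] using hc)
      exact this ▸ h
  | cons a l ih =>
      obtain ⟨o, c1⟩ := a
      intro c0 c c' h hc
      simp only [check, Bool.and_eq_true, decide_eq_true_eq] at hc
      obtain ⟨⟨h1, h2⟩, h3⟩ := hc
      refine ih c0 c1 c' ?_ h3
      have := h.int_step h1 o.2.2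
      convert this using 1
      funext t
      rw [h2 t]
      by_cases ht : t = o.1
      · rw [if_pos ht, ht, Function.update_self, addk_eq]
      · rw [if_neg ht, Function.update_of_ne ht]

/-- one vertex of each pair of opposite vertices -/
def icoB : Fin 6 → W := ![(0, 0, 1, 0, 0, 1),
  (0, 0, -1, 0, 0, 1),
  (0, 1, 0, 0, 1, 0),
  (0, 1, 0, 0, -1, 0),
  (1, 0, 0, 1, 0, 0),
  (-1, 0, 0, 1, 0, 0)]

/-- elementary steps with the resulting states -/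
def icoPath1 : List ((Fin 6 × Fin 6 × ℤ) × (Fin 6 → W)) := [
  ((4, 1, -1), ![(0, 0, 1, 0, 0, 1), (0, 0, -1, 0, 0, 1), (0, 1, 0, 0, 1, 0), (0, 1, 0, 0, -1, 0), (1, 0, 2, 1, 0, -2), (-1, 0, 0, 1, 0, 0)]),
  ((0, 5, 1), ![(-2, 0, 1, 2, 0, 1), (0, 0, -1, 0, 0, 1), (0, 1, 0, 0, 1, 0), (0, 1, 0, 0, -1, 0), (1, 0, 2, 1, 0, -2), (-1, 0, 0, 1, 0, 0)]),
  ((5, 3, 1), ![(-2, 0, 1, 2, 0, 1), (0, 0, -1, 0, 0, 1), (0, 1, 0, 0, 1, 0), (0, 1, 0, 0, -1, 0), (1, 0, 2, 1, 0, -2), (-1, 2, 0, 1, -2, 0)]),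
  ((5, 1, 1), ![(-2, 0, 1, 2, 0, 1), (0, 0, -1, 0, 0, 1), (0, 1, 0, 0, 1, 0), (0, 1, 0, 0, -1, 0), (1, 0, 2, 1, 0, -2), (-1, 2, -2, 1, -2, 2)]),
  ((0, 2, -1), ![(-2, -2, 1, 2, -2, 1), (0, 0, -1, 0, 0, 1), (0, 1, 0, 0, 1, 0), (0, 1, 0, 0, -1, 0), (1, 0, 2, 1, 0, -2), (-1, 2, -2, 1, -2, 2)]),
  ((2, 3, -1), ![(-2, -2, 1, 2, -2, 1), (0, 0, -1, 0, 0, 1), (0, -1, 0, 0, 3, 0), (0, 1, 0, 0, -1, 0), (1, 0, 2, 1, 0, -2), (-1, 2, -2, 1, -2, 2)]),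
  ((2, 1, 1), ![(-2, -2, 1, 2, -2, 1), (0, 0, -1, 0, 0, 1), (0, -1, -2, 0, 3, 2), (0, 1, 0, 0, -1, 0), (1, 0, 2, 1, 0, -2), (-1, 2, -2, 1, -2, 2)]),
  ((5, 4, 1), ![(-2, -2, 1, 2, -2, 1), (0, 0, -1, 0, 0, 1), (0, -1, -2, 0, 3, 2), (0, 1, 0, 0, -1, 0), (1, 0, 2, 1, 0, -2), (1, 2, 2, 3, -2, -2)]),
  ((4, 3, 1), ![(-2, -2, 1, 2, -2, 1), (0, 0, -1, 0, 0, 1), (0, -1, -2, 0, 3, 2), (0, 1, 0, 0, -1, 0), (1, 2, 2, 1, -2, -2), (1, 2, 2, 3, -2, -2)]),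
  ((3, 1, 1), ![(-2, -2, 1, 2, -2, 1), (0, 0, -1, 0, 0, 1), (0, -1, -2, 0, 3, 2), (0, 1, -2, 0, -1, 2), (1, 2, 2, 1, -2, -2), (1, 2, 2, 3, -2, -2)]),
  ((1, 2, -1), ![(-2, -2, 1, 2, -2, 1), (0, 2, 3, 0, -6, -3), (0, -1, -2, 0, 3, 2), (0, 1, -2, 0, -1, 2), (1, 2, 2, 1, -2, -2), (1, 2, 2, 3, -2, -2)]),
  ((1, 4, -1), ![(-2, -2, 1, 2, -2, 1), (-2, -2, -1, -2, -2, 1), (0, -1, -2, 0, 3, 2), (0, 1, -2, 0, -1, 2), (1, 2, 2, 1, -2, -2), (1, 2, 2, 3, -2, -2)])]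

/-- elementary steps with the resulting states -/
def icoPath2 : List ((Fin 6 × Fin 6 × ℤ) × (Fin 6 → W)) := [
  ((2, 1, 1), ![(-2, -2, 1, 2, -2, 1), (-2, -2, -1, -2, -2, 1), (-4, -5, -4, -4, -1, 4), (0, 1, -2, 0, -1, 2), (1, 2, 2, 1, -2, -2), (1, 2, 2, 3, -2, -2)]),
  ((2, 3, -1), ![(-2, -2, 1, 2, -2, 1), (-2, -2, -1, -2, -2, 1), (-4, -7, 0, -4, 1, 0), (0, 1, -2, 0, -1, 2), (1, 2, 2, 1, -2, -2), (1, 2, 2, 3, -2, -2)]),
  ((4, 5, -1), ![(-2, -2, 1, 2, -2, 1), (-2, -2, -1, -2, -2, 1), (-4, -7, 0, -4, 1, 0), (0, 1, -2, 0, -1, 2), (-1, -2, -2, -5, 2, 2), (1, 2, 2, 3, -2, -2)]),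
  ((2, 4, -1), ![(-2, -2, 1, 2, -2, 1), (-2, -2, -1, -2, -2, 1), (-2, -3, 4, 6, -3, -4), (0, 1, -2, 0, -1, 2), (-1, -2, -2, -5, 2, 2), (1, 2, 2, 3, -2, -2)]),
  ((4, 1, -1), ![(-2, -2, 1, 2, -2, 1), (-2, -2, -1, -2, -2, 1), (-2, -3, 4, 6, -3, -4), (0, 1, -2, 0, -1, 2), (3, 2, 0, -1, 6, 0), (1, 2, 2, 3, -2, -2)]),
  ((4, 0, 1), ![(-2, -2, 1, 2, -2, 1), (-2, -2, -1, -2, -2, 1), (-2, -3, 4, 6, -3, -4), (0, 1, -2, 0, -1, 2), (-1, -2, 2, 3, 2, 2), (1, 2, 2, 3, -2, -2)]),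
  ((3, 1, 1), ![(-2, -2, 1, 2, -2, 1), (-2, -2, -1, -2, -2, 1), (-2, -3, 4, 6, -3, -4), (-4, -3, -4, -4, -5, 4), (-1, -2, 2, 3, 2, 2), (1, 2, 2, 3, -2, -2)]),
  ((3, 5, 2), ![(-2, -2, 1, 2, -2, 1), (-2, -2, -1, -2, -2, 1), (-2, -3, 4, 6, -3, -4), (0, 5, 4, 8, -13, -4), (-1, -2, 2, 3, 2, 2), (1, 2, 2, 3, -2, -2)]),
  ((3, 0, -2), ![(-2, -2, 1, 2, -2, 1), (-2, -2, -1, -2, -2, 1), (-2, -3, 4, 6, -3, -4), (8, 13, 0, 0, -5, -8), (-1, -2, 2, 3, 2, 2), (1, 2, 2, 3, -2, -2)]),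
  ((0, 5, 1), ![(0, 2, 5, 8, -6, -3), (-2, -2, -1, -2, -2, 1), (-2, -3, 4, 6, -3, -4), (8, 13, 0, 0, -5, -8), (-1, -2, 2, 3, 2, 2), (1, 2, 2, 3, -2, -2)]),
  ((0, 4, 2), ![(-4, -6, 13, 20, 2, 5), (-2, -2, -1, -2, -2, 1), (-2, -3, 4, 6, -3, -4), (8, 13, 0, 0, -5, -8), (-1, -2, 2, 3, 2, 2), (1, 2, 2, 3, -2, -2)]),
  ((0, 2, -1), ![(0, 0, 5, 8, 8, 13), (-2, -2, -1, -2, -2, 1), (-2, -3, 4, 6, -3, -4), (8, 13, 0, 0, -5, -8), (-1, -2, 2, 3, 2, 2), (1, 2, 2, 3, -2, -2)])]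

/-- elementary steps with the resulting states -/
def icoPath3 : List ((Fin 6 × Fin 6 × ℤ) × (Fin 6 → W)) := [
  ((1, 4, 1), ![(0, 0, 5, 8, 8, 13), (-4, -6, 3, 4, 2, 5), (-2, -3, 4, 6, -3, -4), (8, 13, 0, 0, -5, -8), (-1, -2, 2, 3, 2, 2), (1, 2, 2, 3, -2, -2)]),
  ((4, 5, 1), ![(0, 0, 5, 8, 8, 13), (-4, -6, 3, 4, 2, 5), (-2, -3, 4, 6, -3, -4), (8, 13, 0, 0, -5, -8), (1, 2, 6, 9, -2, -2), (1, 2, 2, 3, -2, -2)]),
  ((1, 2, -1), ![(0, 0, 5, 8, 8, 13), (0, 0, -5, -8, 8, 13), (-2, -3, 4, 6, -3, -4), (8, 13, 0, 0, -5, -8), (1, 2, 6, 9, -2, -2), (1, 2, 2, 3, -2, -2)]),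
  ((4, 2, -1), ![(0, 0, 5, 8, 8, 13), (0, 0, -5, -8, 8, 13), (-2, -3, 4, 6, -3, -4), (8, 13, 0, 0, -5, -8), (5, 8, -2, -3, 4, 6), (1, 2, 2, 3, -2, -2)]),
  ((5, 4, 1), ![(0, 0, 5, 8, 8, 13), (0, 0, -5, -8, 8, 13), (-2, -3, 4, 6, -3, -4), (8, 13, 0, 0, -5, -8), (5, 8, -2, -3, 4, 6), (11, 18, -2, -3, 6, 10)]),
  ((5, 1, -1), ![(0, 0, 5, 8, 8, 13), (0, 0, -5, -8, 8, 13), (-2, -3, 4, 6, -3, -4), (8, 13, 0, 0, -5, -8), (5, 8, -2, -3, 4, 6), (11, 18, 8, 13, -10, -16)]),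
  ((2, 4, 1), ![(0, 0, 5, 8, 8, 13), (0, 0, -5, -8, 8, 13), (8, 13, 0, 0, 5, 8), (8, 13, 0, 0, -5, -8), (5, 8, -2, -3, 4, 6), (11, 18, 8, 13, -10, -16)]),
  ((5, 3, -1), ![(0, 0, 5, 8, 8, 13), (0, 0, -5, -8, 8, 13), (8, 13, 0, 0, 5, 8), (8, 13, 0, 0, -5, -8), (5, 8, -2, -3, 4, 6), (-5, -8, 8, 13, 0, 0)]),
  ((4, 3, 1), ![(0, 0, 5, 8, 8, 13), (0, 0, -5, -8, 8, 13), (8, 13, 0, 0, 5, 8), (8, 13, 0, 0, -5, -8), (21, 34, -2, -3, -6, -10), (-5, -8, 8, 13, 0, 0)]),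
  ((4, 0, 1), ![(0, 0, 5, 8, 8, 13), (0, 0, -5, -8, 8, 13), (8, 13, 0, 0, 5, 8), (8, 13, 0, 0, -5, -8), (21, 34, 8, 13, 10, 16), (-5, -8, 8, 13, 0, 0)]),
  ((4, 2, -1), ![(0, 0, 5, 8, 8, 13), (0, 0, -5, -8, 8, 13), (8, 13, 0, 0, 5, 8), (8, 13, 0, 0, -5, -8), (5, 8, 8, 13, 0, 0), (-5, -8, 8, 13, 0, 0)])]

/-- all the elementary steps -/
def icoPath : List ((Fin 6 × Fin 6 × ℤ) × (Fin 6 → W)) :=
  icoPath1 ++ icoPath2 ++ icoPath3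

/-- one vertex of each pair of opposite vertices -/
def dodB : Fin 10 → W := ![(1, 0, 1, 0, 1, 0),
  (1, 0, 1, 0, -1, 0),
  (1, 0, -1, 0, 1, 0),
  (-1, 0, 1, 0, 1, 0),
  (0, 0, -1, 1, 0, 1),
  (0, 0, 1, -1, 0, 1),
  (-1, 1, 0, 1, 0, 0),
  (1, -1, 0, 1, 0, 0),
  (0, 1, 0, 0, -1, 1),
  (0, 1, 0, 0, 1, -1)]

/-- elementary steps with the resulting states -/
def dodPath1 : List ((Fin 10 × Fin 10 × ℤ) × (Fin 10 → W)) := [
  ((3, 0, 6), ![(1, 0, 1, 0, 1, 0), (1, 0, 1, 0, -1, 0), (1, 0, -1, 0, 1, 0), (11, 0, 13, 0, 13, 0), (0, 0, -1, 1, 0, 1), (0, 0, 1, -1, 0, 1), (-1, 1, 0, 1, 0, 0), (1, -1, 0, 1, 0, 0), (0, 1, 0, 0, -1, 1), (0, 1, 0, 0, 1, -1)]),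
  ((3, 1, -4), ![(1, 0, 1, 0, 1, 0), (1, 0, 1, 0, -1, 0), (1, 0, -1, 0, 1, 0), (3, 0, 5, 0, 21, 0), (0, 0, -1, 1, 0, 1), (0, 0, 1, -1, 0, 1), (-1, 1, 0, 1, 0, 0), (1, -1, 0, 1, 0, 0), (0, 1, 0, 0, -1, 1), (0, 1, 0, 0, 1, -1)]),
  ((3, 2, -8), ![(1, 0, 1, 0, 1, 0), (1, 0, 1, 0, -1, 0), (1, 0, -1, 0, 1, 0), (-13, 0, 21, 0, 5, 0), (0, 0, -1, 1, 0, 1), (0, 0, 1, -1, 0, 1), (-1, 1, 0, 1, 0, 0), (1, -1, 0, 1, 0, 0), (0, 1, 0, 0, -1, 1), (0, 1, 0, 0, 1, -1)]),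
  ((3, 4, 6), ![(1, 0, 1, 0, 1, 0), (1, 0, 1, 0, -1, 0), (1, 0, -1, 0, 1, 0), (-13, 0, 9, 12, 5, 12), (0, 0, -1, 1, 0, 1), (0, 0, 1, -1, 0, 1), (-1, 1, 0, 1, 0, 0), (1, -1, 0, 1, 0, 0), (0, 1, 0, 0, -1, 1), (0, 1, 0, 0, 1, -1)]),
  ((3, 5, -2), ![(1, 0, 1, 0, 1, 0), (1, 0, 1, 0, -1, 0), (1, 0, -1, 0, 1, 0), (-13, 0, 5, 16, 5, 8), (0, 0, -1, 1, 0, 1), (0, 0, 1, -1, 0, 1), (-1, 1, 0, 1, 0, 0), (1, -1, 0, 1, 0, 0), (0, 1, 0, 0, -1, 1), (0, 1, 0, 0, 1, -1)]),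
  ((3, 6, -4), ![(1, 0, 1, 0, 1, 0), (1, 0, 1, 0, -1, 0), (1, 0, -1, 0, 1, 0), (-5, -8, 5, 8, 5, 8), (0, 0, -1, 1, 0, 1), (0, 0, 1, -1, 0, 1), (-1, 1, 0, 1, 0, 0), (1, -1, 0, 1, 0, 0), (0, 1, 0, 0, -1, 1), (0, 1, 0, 0, 1, -1)]),
  ((7, 0, 6), ![(1, 0, 1, 0, 1, 0), (1, 0, 1, 0, -1, 0), (1, 0, -1, 0, 1, 0), (-5, -8, 5, 8, 5, 8), (0, 0, -1, 1, 0, 1), (0, 0, 1, -1, 0, 1), (-1, 1, 0, 1, 0, 0), (13, -1, 12, 1, 12, 0), (0, 1, 0, 0, -1, 1), (0, 1, 0, 0, 1, -1)]),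
  ((7, 1, -2), ![(1, 0, 1, 0, 1, 0), (1, 0, 1, 0, -1, 0), (1, 0, -1, 0, 1, 0), (-5, -8, 5, 8, 5, 8), (0, 0, -1, 1, 0, 1), (0, 0, 1, -1, 0, 1), (-1, 1, 0, 1, 0, 0), (9, -1, 8, 1, 16, 0), (0, 1, 0, 0, -1, 1), (0, 1, 0, 0, 1, -1)])]

/-- elementary steps with the resulting states -/
def dodPath2 : List ((Fin 10 × Fin 10 × ℤ) × (Fin 10 → W)) := [
  ((7, 2, -8), ![(1, 0, 1, 0, 1, 0), (1, 0, 1, 0, -1, 0), (1, 0, -1, 0, 1, 0), (-5, -8, 5, 8, 5, 8), (0, 0, -1, 1, 0, 1), (0, 0, 1, -1, 0, 1), (-1, 1, 0, 1, 0, 0), (-7, -1, 24, 1, 0, 0), (0, 1, 0, 0, -1, 1), (0, 1, 0, 0, 1, -1)]),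
  ((7, 4, 4), ![(1, 0, 1, 0, 1, 0), (1, 0, 1, 0, -1, 0), (1, 0, -1, 0, 1, 0), (-5, -8, 5, 8, 5, 8), (0, 0, -1, 1, 0, 1), (0, 0, 1, -1, 0, 1), (-1, 1, 0, 1, 0, 0), (-7, -1, 16, 9, 0, 8), (0, 1, 0, 0, -1, 1), (0, 1, 0, 0, 1, -1)]),
  ((7, 5, -4), ![(1, 0, 1, 0, 1, 0), (1, 0, 1, 0, -1, 0), (1, 0, -1, 0, 1, 0), (-5, -8, 5, 8, 5, 8), (0, 0, -1, 1, 0, 1), (0, 0, 1, -1, 0, 1), (-1, 1, 0, 1, 0, 0), (-7, -1, 8, 17, 0, 0), (0, 1, 0, 0, -1, 1), (0, 1, 0, 0, 1, -1)]),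
  ((7, 6, -2), ![(1, 0, 1, 0, 1, 0), (1, 0, 1, 0, -1, 0), (1, 0, -1, 0, 1, 0), (-5, -8, 5, 8, 5, 8), (0, 0, -1, 1, 0, 1), (0, 0, 1, -1, 0, 1), (-1, 1, 0, 1, 0, 0), (-3, -5, 8, 13, 0, 0), (0, 1, 0, 0, -1, 1), (0, 1, 0, 0, 1, -1)]),
  ((8, 0, -2), ![(1, 0, 1, 0, 1, 0), (1, 0, 1, 0, -1, 0), (1, 0, -1, 0, 1, 0), (-5, -8, 5, 8, 5, 8), (0, 0, -1, 1, 0, 1), (0, 0, 1, -1, 0, 1), (-1, 1, 0, 1, 0, 0), (-3, -5, 8, 13, 0, 0), (-4, 1, -4, 0, -5, 1), (0, 1, 0, 0, 1, -1)]),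
  ((8, 1, 4), ![(1, 0, 1, 0, 1, 0), (1, 0, 1, 0, -1, 0), (1, 0, -1, 0, 1, 0), (-5, -8, 5, 8, 5, 8), (0, 0, -1, 1, 0, 1), (0, 0, 1, -1, 0, 1), (-1, 1, 0, 1, 0, 0), (-3, -5, 8, 13, 0, 0), (4, 1, 4, 0, -13, 1), (0, 1, 0, 0, 1, -1)]),
  ((8, 2, 8), ![(1, 0, 1, 0, 1, 0), (1, 0, 1, 0, -1, 0), (1, 0, -1, 0, 1, 0), (-5, -8, 5, 8, 5, 8), (0, 0, -1, 1, 0, 1), (0, 0, 1, -1, 0, 1), (-1, 1, 0, 1, 0, 0), (-3, -5, 8, 13, 0, 0), (20, 1, -12, 0, 3, 1), (0, 1, 0, 0, 1, -1)]),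
  ((8, 4, -2), ![(1, 0, 1, 0, 1, 0), (1, 0, 1, 0, -1, 0), (1, 0, -1, 0, 1, 0), (-5, -8, 5, 8, 5, 8), (0, 0, -1, 1, 0, 1), (0, 0, 1, -1, 0, 1), (-1, 1, 0, 1, 0, 0), (-3, -5, 8, 13, 0, 0), (20, 1, -8, -4, 3, -3), (0, 1, 0, 0, 1, -1)])]

/-- elementary steps with the resulting states -/
def dodPath3 : List ((Fin 10 × Fin 10 × ℤ) × (Fin 10 → W)) := [
  ((8, 5, 4), ![(1, 0, 1, 0, 1, 0), (1, 0, 1, 0, -1, 0), (1, 0, -1, 0, 1, 0), (-5, -8, 5, 8, 5, 8), (0, 0, -1, 1, 0, 1), (0, 0, 1, -1, 0, 1), (-1, 1, 0, 1, 0, 0), (-3, -5, 8, 13, 0, 0), (20, 1, 0, -12, 3, 5), (0, 1, 0, 0, 1, -1)]),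
  ((8, 6, 6), ![(1, 0, 1, 0, 1, 0), (1, 0, 1, 0, -1, 0), (1, 0, -1, 0, 1, 0), (-5, -8, 5, 8, 5, 8), (0, 0, -1, 1, 0, 1), (0, 0, 1, -1, 0, 1), (-1, 1, 0, 1, 0, 0), (-3, -5, 8, 13, 0, 0), (8, 13, 0, 0, 3, 5), (0, 1, 0, 0, 1, -1)]),
  ((9, 0, -4), ![(1, 0, 1, 0, 1, 0), (1, 0, 1, 0, -1, 0), (1, 0, -1, 0, 1, 0), (-5, -8, 5, 8, 5, 8), (0, 0, -1, 1, 0, 1), (0, 0, 1, -1, 0, 1), (-1, 1, 0, 1, 0, 0), (-3, -5, 8, 13, 0, 0), (8, 13, 0, 0, 3, 5), (-8, 1, -8, 0, -7, -1)]),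
  ((9, 1, 6), ![(1, 0, 1, 0, 1, 0), (1, 0, 1, 0, -1, 0), (1, 0, -1, 0, 1, 0), (-5, -8, 5, 8, 5, 8), (0, 0, -1, 1, 0, 1), (0, 0, 1, -1, 0, 1), (-1, 1, 0, 1, 0, 0), (-3, -5, 8, 13, 0, 0), (8, 13, 0, 0, 3, 5), (4, 1, 4, 0, -19, -1)]),
  ((9, 2, 8), ![(1, 0, 1, 0, 1, 0), (1, 0, 1, 0, -1, 0), (1, 0, -1, 0, 1, 0), (-5, -8, 5, 8, 5, 8), (0, 0, -1, 1, 0, 1), (0, 0, 1, -1, 0, 1), (-1, 1, 0, 1, 0, 0), (-3, -5, 8, 13, 0, 0), (8, 13, 0, 0, 3, 5), (20, 1, -12, 0, -3, -1)]),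
  ((9, 4, -4), ![(1, 0, 1, 0, 1, 0), (1, 0, 1, 0, -1, 0), (1, 0, -1, 0, 1, 0), (-5, -8, 5, 8, 5, 8), (0, 0, -1, 1, 0, 1), (0, 0, 1, -1, 0, 1), (-1, 1, 0, 1, 0, 0), (-3, -5, 8, 13, 0, 0), (8, 13, 0, 0, 3, 5), (20, 1, -4, -8, -3, -9)]),
  ((9, 5, 2), ![(1, 0, 1, 0, 1, 0), (1, 0, 1, 0, -1, 0), (1, 0, -1, 0, 1, 0), (-5, -8, 5, 8, 5, 8), (0, 0, -1, 1, 0, 1), (0, 0, 1, -1, 0, 1), (-1, 1, 0, 1, 0, 0), (-3, -5, 8, 13, 0, 0), (8, 13, 0, 0, 3, 5), (20, 1, 0, -12, -3, -5)]),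
  ((9, 6, 6), ![(1, 0, 1, 0, 1, 0), (1, 0, 1, 0, -1, 0), (1, 0, -1, 0, 1, 0), (-5, -8, 5, 8, 5, 8), (0, 0, -1, 1, 0, 1), (0, 0, 1, -1, 0, 1), (-1, 1, 0, 1, 0, 0), (-3, -5, 8, 13, 0, 0), (8, 13, 0, 0, 3, 5), (8, 13, 0, 0, -3, -5)])]

/-- elementary steps with the resulting states -/
def dodPath4 : List ((Fin 10 × Fin 10 × ℤ) × (Fin 10 → W)) := [
  ((0, 6, -1), ![(3, -2, 1, -2, 1, 0), (1, 0, 1, 0, -1, 0), (1, 0, -1, 0, 1, 0), (-5, -8, 5, 8, 5, 8), (0, 0, -1, 1, 0, 1), (0, 0, 1, -1, 0, 1), (-1, 1, 0, 1, 0, 0), (-3, -5, 8, 13, 0, 0), (8, 13, 0, 0, 3, 5), (8, 13, 0, 0, -3, -5)]),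
  ((4, 6, 1), ![(3, -2, 1, -2, 1, 0), (1, 0, 1, 0, -1, 0), (1, 0, -1, 0, 1, 0), (-5, -8, 5, 8, 5, 8), (-2, 2, -1, 3, 0, 1), (0, 0, 1, -1, 0, 1), (-1, 1, 0, 1, 0, 0), (-3, -5, 8, 13, 0, 0), (8, 13, 0, 0, 3, 5), (8, 13, 0, 0, -3, -5)]),
  ((4, 5, 1), ![(3, -2, 1, -2, 1, 0), (1, 0, 1, 0, -1, 0), (1, 0, -1, 0, 1, 0), (-5, -8, 5, 8, 5, 8), (-2, 2, 1, 1, 0, 3), (0, 0, 1, -1, 0, 1), (-1, 1, 0, 1, 0, 0), (-3, -5, 8, 13, 0, 0), (8, 13, 0, 0, 3, 5), (8, 13, 0, 0, -3, -5)]),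
  ((1, 6, 1), ![(3, -2, 1, -2, 1, 0), (-1, 2, 1, 2, -1, 0), (1, 0, -1, 0, 1, 0), (-5, -8, 5, 8, 5, 8), (-2, 2, 1, 1, 0, 3), (0, 0, 1, -1, 0, 1), (-1, 1, 0, 1, 0, 0), (-3, -5, 8, 13, 0, 0), (8, 13, 0, 0, 3, 5), (8, 13, 0, 0, -3, -5)]),
  ((6, 0, 1), ![(3, -2, 1, -2, 1, 0), (-1, 2, 1, 2, -1, 0), (1, 0, -1, 0, 1, 0), (-5, -8, 5, 8, 5, 8), (-2, 2, 1, 1, 0, 3), (0, 0, 1, -1, 0, 1), (5, -3, 2, -3, 2, 0), (-3, -5, 8, 13, 0, 0), (8, 13, 0, 0, 3, 5), (8, 13, 0, 0, -3, -5)]),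
  ((6, 5, -1), ![(3, -2, 1, -2, 1, 0), (-1, 2, 1, 2, -1, 0), (1, 0, -1, 0, 1, 0), (-5, -8, 5, 8, 5, 8), (-2, 2, 1, 1, 0, 3), (0, 0, 1, -1, 0, 1), (5, -3, 0, -1, 2, -2), (-3, -5, 8, 13, 0, 0), (8, 13, 0, 0, 3, 5), (8, 13, 0, 0, -3, -5)]),
  ((0, 4, -1), ![(7, -6, -1, -4, 1, -6), (-1, 2, 1, 2, -1, 0), (1, 0, -1, 0, 1, 0), (-5, -8, 5, 8, 5, 8), (-2, 2, 1, 1, 0, 3), (0, 0, 1, -1, 0, 1), (5, -3, 0, -1, 2, -2), (-3, -5, 8, 13, 0, 0), (8, 13, 0, 0, 3, 5), (8, 13, 0, 0, -3, -5)]),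
  ((0, 6, -1), ![(-3, 0, -1, -2, -3, -2), (-1, 2, 1, 2, -1, 0), (1, 0, -1, 0, 1, 0), (-5, -8, 5, 8, 5, 8), (-2, 2, 1, 1, 0, 3), (0, 0, 1, -1, 0, 1), (5, -3, 0, -1, 2, -2), (-3, -5, 8, 13, 0, 0), (8, 13, 0, 0, 3, 5), (8, 13, 0, 0, -3, -5)])]

/-- elementary steps with the resulting states -/
def dodPath5 : List ((Fin 10 × Fin 10 × ℤ) × (Fin 10 → W)) := [
  ((6, 1, 2), ![(-3, 0, -1, -2, -3, -2), (-1, 2, 1, 2, -1, 0), (1, 0, -1, 0, 1, 0), (-5, -8, 5, 8, 5, 8), (-2, 2, 1, 1, 0, 3), (0, 0, 1, -1, 0, 1), (1, 5, 4, 7, -2, -2), (-3, -5, 8, 13, 0, 0), (8, 13, 0, 0, 3, 5), (8, 13, 0, 0, -3, -5)]),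
  ((5, 2, 1), ![(-3, 0, -1, -2, -3, -2), (-1, 2, 1, 2, -1, 0), (1, 0, -1, 0, 1, 0), (-5, -8, 5, 8, 5, 8), (-2, 2, 1, 1, 0, 3), (2, 0, -1, -1, 2, 1), (1, 5, 4, 7, -2, -2), (-3, -5, 8, 13, 0, 0), (8, 13, 0, 0, 3, 5), (8, 13, 0, 0, -3, -5)]),
  ((6, 5, -1), ![(-3, 0, -1, -2, -3, -2), (-1, 2, 1, 2, -1, 0), (1, 0, -1, 0, 1, 0), (-5, -8, 5, 8, 5, 8), (-2, 2, 1, 1, 0, 3), (2, 0, -1, -1, 2, 1), (-3, 5, 6, 9, -6, -4), (-3, -5, 8, 13, 0, 0), (8, 13, 0, 0, 3, 5), (8, 13, 0, 0, -3, -5)]),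
  ((2, 1, -1), ![(-3, 0, -1, -2, -3, -2), (-1, 2, 1, 2, -1, 0), (3, -4, -3, -4, 3, 0), (-5, -8, 5, 8, 5, 8), (-2, 2, 1, 1, 0, 3), (2, 0, -1, -1, 2, 1), (-3, 5, 6, 9, -6, -4), (-3, -5, 8, 13, 0, 0), (8, 13, 0, 0, 3, 5), (8, 13, 0, 0, -3, -5)]),
  ((1, 5, -1), ![(-3, 0, -1, -2, -3, -2), (-5, 2, 3, 4, -5, -2), (3, -4, -3, -4, 3, 0), (-5, -8, 5, 8, 5, 8), (-2, 2, 1, 1, 0, 3), (2, 0, -1, -1, 2, 1), (-3, 5, 6, 9, -6, -4), (-3, -5, 8, 13, 0, 0), (8, 13, 0, 0, 3, 5), (8, 13, 0, 0, -3, -5)]),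
  ((2, 4, 1), ![(-3, 0, -1, -2, -3, -2), (-5, 2, 3, 4, -5, -2), (-1, 0, -1, -2, 3, 6), (-5, -8, 5, 8, 5, 8), (-2, 2, 1, 1, 0, 3), (2, 0, -1, -1, 2, 1), (-3, 5, 6, 9, -6, -4), (-3, -5, 8, 13, 0, 0), (8, 13, 0, 0, 3, 5), (8, 13, 0, 0, -3, -5)]),
  ((4, 1, 1), ![(-3, 0, -1, -2, -3, -2), (-5, 2, 3, 4, -5, -2), (-1, 0, -1, -2, 3, 6), (-5, -8, 5, 8, 5, 8), (-12, 6, 7, 9, -10, -1), (2, 0, -1, -1, 2, 1), (-3, 5, 6, 9, -6, -4), (-3, -5, 8, 13, 0, 0), (8, 13, 0, 0, 3, 5), (8, 13, 0, 0, -3, -5)]),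
  ((4, 6, -1), ![(-3, 0, -1, -2, -3, -2), (-5, 2, 3, 4, -5, -2), (-1, 0, -1, -2, 3, 6), (-5, -8, 5, 8, 5, 8), (-6, -4, -5, -9, 2, 7), (2, 0, -1, -1, 2, 1), (-3, 5, 6, 9, -6, -4), (-3, -5, 8, 13, 0, 0), (8, 13, 0, 0, 3, 5), (8, 13, 0, 0, -3, -5)])]

/-- elementary steps with the resulting states -/
def dodPath6 : List ((Fin 10 × Fin 10 × ℤ) × (Fin 10 → W)) := [
  ((1, 0, -1), ![(-3, 0, -1, -2, -3, -2), (1, 2, 5, 8, 1, 2), (-1, 0, -1, -2, 3, 6), (-5, -8, 5, 8, 5, 8), (-6, -4, -5, -9, 2, 7), (2, 0, -1, -1, 2, 1), (-3, 5, 6, 9, -6, -4), (-3, -5, 8, 13, 0, 0), (8, 13, 0, 0, 3, 5), (8, 13, 0, 0, -3, -5)]),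
  ((6, 0, -1), ![(-3, 0, -1, -2, -3, -2), (1, 2, 5, 8, 1, 2), (-1, 0, -1, -2, 3, 6), (-5, -8, 5, 8, 5, 8), (-6, -4, -5, -9, 2, 7), (2, 0, -1, -1, 2, 1), (3, 5, 8, 13, 0, 0), (-3, -5, 8, 13, 0, 0), (8, 13, 0, 0, 3, 5), (8, 13, 0, 0, -3, -5)]),
  ((0, 4, -1), ![(9, 8, 9, 16, -7, -16), (1, 2, 5, 8, 1, 2), (-1, 0, -1, -2, 3, 6), (-5, -8, 5, 8, 5, 8), (-6, -4, -5, -9, 2, 7), (2, 0, -1, -1, 2, 1), (3, 5, 8, 13, 0, 0), (-3, -5, 8, 13, 0, 0), (8, 13, 0, 0, 3, 5), (8, 13, 0, 0, -3, -5)]),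
  ((0, 2, 2), ![(5, 8, 5, 8, 5, 8), (1, 2, 5, 8, 1, 2), (-1, 0, -1, -2, 3, 6), (-5, -8, 5, 8, 5, 8), (-6, -4, -5, -9, 2, 7), (2, 0, -1, -1, 2, 1), (3, 5, 8, 13, 0, 0), (-3, -5, 8, 13, 0, 0), (8, 13, 0, 0, 3, 5), (8, 13, 0, 0, -3, -5)]),
  ((4, 5, 1), ![(5, 8, 5, 8, 5, 8), (1, 2, 5, 8, 1, 2), (-1, 0, -1, -2, 3, 6), (-5, -8, 5, 8, 5, 8), (-2, -4, -7, -11, 6, 9), (2, 0, -1, -1, 2, 1), (3, 5, 8, 13, 0, 0), (-3, -5, 8, 13, 0, 0), (8, 13, 0, 0, 3, 5), (8, 13, 0, 0, -3, -5)]),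
  ((5, 2, 1), ![(5, 8, 5, 8, 5, 8), (1, 2, 5, 8, 1, 2), (-1, 0, -1, -2, 3, 6), (-5, -8, 5, 8, 5, 8), (-2, -4, -7, -11, 6, 9), (0, 0, -3, -5, 8, 13), (3, 5, 8, 13, 0, 0), (-3, -5, 8, 13, 0, 0), (8, 13, 0, 0, 3, 5), (8, 13, 0, 0, -3, -5)]),
  ((2, 4, 1), ![(5, 8, 5, 8, 5, 8), (1, 2, 5, 8, 1, 2), (-5, -8, -15, -24, 15, 24), (-5, -8, 5, 8, 5, 8), (-2, -4, -7, -11, 6, 9), (0, 0, -3, -5, 8, 13), (3, 5, 8, 13, 0, 0), (-3, -5, 8, 13, 0, 0), (8, 13, 0, 0, 3, 5), (8, 13, 0, 0, -3, -5)]),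
  ((4, 1, 1), ![(5, 8, 5, 8, 5, 8), (1, 2, 5, 8, 1, 2), (-5, -8, -15, -24, 15, 24), (-5, -8, 5, 8, 5, 8), (0, 0, 3, 5, 8, 13), (0, 0, -3, -5, 8, 13), (3, 5, 8, 13, 0, 0), (-3, -5, 8, 13, 0, 0), (8, 13, 0, 0, 3, 5), (8, 13, 0, 0, -3, -5)])]

/-- elementary steps with the resulting states -/
def dodPath7 : List ((Fin 10 × Fin 10 × ℤ) × (Fin 10 → W)) := [
  ((1, 6, -1), ![(5, 8, 5, 8, 5, 8), (-5, -8, -11, -18, 1, 2), (-5, -8, -15, -24, 15, 24), (-5, -8, 5, 8, 5, 8), (0, 0, 3, 5, 8, 13), (0, 0, -3, -5, 8, 13), (3, 5, 8, 13, 0, 0), (-3, -5, 8, 13, 0, 0), (8, 13, 0, 0, 3, 5), (8, 13, 0, 0, -3, -5)]),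
  ((1, 0, 1), ![(5, 8, 5, 8, 5, 8), (5, 8, -1, -2, 11, 18), (-5, -8, -15, -24, 15, 24), (-5, -8, 5, 8, 5, 8), (0, 0, 3, 5, 8, 13), (0, 0, -3, -5, 8, 13), (3, 5, 8, 13, 0, 0), (-3, -5, 8, 13, 0, 0), (8, 13, 0, 0, 3, 5), (8, 13, 0, 0, -3, -5)]),
  ((1, 5, -1), ![(5, 8, 5, 8, 5, 8), (5, 8, 5, 8, -5, -8), (-5, -8, -15, -24, 15, 24), (-5, -8, 5, 8, 5, 8), (0, 0, 3, 5, 8, 13), (0, 0, -3, -5, 8, 13), (3, 5, 8, 13, 0, 0), (-3, -5, 8, 13, 0, 0), (8, 13, 0, 0, 3, 5), (8, 13, 0, 0, -3, -5)]),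
  ((2, 1, 1), ![(5, 8, 5, 8, 5, 8), (5, 8, 5, 8, -5, -8), (5, 8, -5, -8, 5, 8), (-5, -8, 5, 8, 5, 8), (0, 0, 3, 5, 8, 13), (0, 0, -3, -5, 8, 13), (3, 5, 8, 13, 0, 0), (-3, -5, 8, 13, 0, 0), (8, 13, 0, 0, 3, 5), (8, 13, 0, 0, -3, -5)])]

/-- all the elementary steps -/
def dodPath : List ((Fin 10 × Fin 10 × ℤ) × (Fin 10 → W)) :=
  dodPath1 ++ dodPath2 ++ dodPath3 ++ dodPath4 ++ dodPath5 ++ dodPath6 ++ dodPath7

theorem icoPR : PR icoB (fun i => mulL (icoB i)) :=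
  check_sound icoPath icoB icoB _ (PR.refl _) (by decide +kernel)

theorem dodPR : PR dodB (fun i => mulL (dodB i)) :=
  check_sound dodPath dodB dodB _ (PR.refl _) (by decide +kernel)

/-! ### The real picture -/

/-- the position of an element of `ℤ[φ]³` -/
noncomputable def toR (x : W) : E3 :=
  !₂[(x.1 : ℝ) + x.2.1 * φ, (x.2.2.1 : ℝ) + x.2.2.2.1 * φ, (x.2.2.2.2.1 : ℝ) + x.2.2.2.2.2 * φ]

theorem toR_sub (x y : W) : toR (2 • y - x) = 2 • toR y - toR x := by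
  obtain ⟨a, b, c, d, e, f⟩ := x
  obtain ⟨a', b', c', d', e', f'⟩ := y
  ext t
  fin_cases t <;> simp [toR] <;> ring

theorem toR_smul (u : ℤˣ) (x : W) : toR (u • x) = u • toR x := by
  obtain ⟨a, b, c, d, e, f⟩ := x
  rcases units_cases u with rfl | rfl
  · simp
  · rw [Units.neg_smul, Units.neg_smul, one_smul, one_smul]
    ext t
    fin_cases t <;> simp [toR] <;> ring

/-- the ratio `φ^6 = 5 + 8 φ` -/
noncomputable def lam : ℝ := 5 + 8 * φ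

theorem phi_sq : φ * φ = φ + 1 := by
  have := Real.goldenRatio_sq
  rw [sq] at this
  rw [phi_eq]
  exact this

theorem toR_mulL (x : W) : toR (mulL x) = lam • toR x := by
  obtain ⟨a, b, c, d, e, f⟩ := x
  have key : ∀ a b : ℝ, 5 * a + 8 * b + (8 * a + 13 * b) * φ = lam * (a + b * φ) := by
    intro a b
    unfold lam
    linear_combination (-8 * b) * phi_sq
  ext t
  fin_cases t
  · simpa [toR, mulL] using key a b
  · simpa [toR, mulL] using key c d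
  · simpa [toR, mulL] using key e f

theorem coord_inj {a b a' b' : ℤ} (h : (a : ℝ) + b * φ = a' + b' * φ) : a = a' ∧ b = b' := by
  have hb : b = b' := by
    by_contra hne
    have hne' : ((b : ℝ) - b') ≠ 0 := by
      intro h0
      apply hne
      have : (b : ℝ) = b' := by linarith
      exact_mod_cast this
    have : φ = ((a' - a : ℤ) / (b - b' : ℤ) : ℚ) := by
      push_cast
      rw [eq_div_iff hne']
      linarith
    exact Real.goldenRatio_irrational.ne_rat _ (phi_eq ▸ this)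
  subst hb
  refine ⟨?_, rfl⟩
  have : (a : ℝ) = a' := by linarith
  exact_mod_cast this

theorem toR_injective : Function.Injective toR := by
  rintro ⟨a, b, c, d, e, f⟩ ⟨a', b', c', d', e', f'⟩ h
  have h0 := congrFun (congrArg WithLp.ofLp h) 0
  have h1 := congrFun (congrArg WithLp.ofLp h) 1
  have h2 := congrFun (congrArg WithLp.ofLp h) 2
  simp only [toR] at h0 h1 h2
  simp at h0 h1 h2
  obtain ⟨r1, r2⟩ := coord_inj h0
  obtain ⟨r3, r4⟩ := coord_inj h1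
  obtain ⟨r5, r6⟩ := coord_inj h2
  subst r1 r2 r3 r4 r5 r6
  rfl

/-! ### Similarities -/

/-- a similarity is affine -/
theorem IsSimilarity.affine {r : ℝ} {σ : E3 → E3} (h : IsSimilarity r σ) :
    ∃ (A : E3 →ₗ[ℝ] E3) (v : E3), ∀ x, σ x = A x + v := by
  obtain ⟨hr, hd⟩ := h
  have hi : Isometry (fun x => r⁻¹ • σ x) := by
    refine Isometry.of_dist_eq fun x y => ?_
    rw [dist_smul₀, hd, Real.norm_of_nonneg (by positivity)]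
    field_simp
  let g := hi.affineIsometryOfStrictConvexSpace
  have hg : ∀ x, g x = r⁻¹ • σ x := fun x => rfl
  refine ⟨r • g.toAffineMap.linear, r • g 0, fun x => ?_⟩
  have h1 : g x = g.toAffineMap.linear x + g 0 := by
    have := g.toAffineMap.decomp
    have h2 := congrFun this x
    simpa using h2
  have h3 : σ x = r • g x := by
    rw [hg, smul_smul, mul_inv_cancel₀ hr.ne', one_smul]
  rw [h3, h1, smul_add]
  rfl

theorem IsSimilarity.injective {r : ℝ} {σ : E3 → E3} (h : IsSimilarity r σ) :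
    Function.Injective σ := by
  intro x y hxy
  have := h.2 x y
  rw [hxy, dist_self] at this
  have h0 : dist x y = 0 := by
    rcases mul_eq_zero.1 this.symm with h1 | h1
    · exact absurd h1 h.1.ne'
    · exact h1
  exact dist_eq_zero.1 h0

/-- moves are carried by maps that commute with point reflections -/
theorem Move.map {ι V V' : Type*} [AddCommGroup V] [AddCommGroup V'] {p p' : ι → V}
    (f : V → V') (hf : ∀ x y, f (2 • y - x) = 2 • f y - f x) (h : Move p p') :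
    Move (fun i => f (p i)) (fun i => f (p' i)) := by
  obtain ⟨i, j, hij, h1, h2⟩ := h
  refine ⟨i, j, hij, ?_, ?_⟩
  · simp only [h1, hf]
  · intro k hk
    simp only [h2 k hk]

/-- moves are carried by relabelling -/
theorem Move.relabel {ι κ V : Type*} [AddCommGroup V] {p p' : ι → V} (e : κ ≃ ι)
    (h : Move p p') : Move (fun i => p (e i)) (fun i => p' (e i)) := by
  obtain ⟨i, j, hij, h1, h2⟩ := h
  refine ⟨e.symm i, e.symm j, fun h => hij (e.symm.injective h), ?_, ?_⟩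
  · simp only [Equiv.apply_symm_apply, h1]
  · intro k hk
    apply h2
    intro h
    apply hk
    rw [← h, Equiv.symm_apply_apply]

theorem one_lt_lam : 1 < lam := by
  unfold lam
  have := Real.one_lt_goldenRatio
  rw [← phi_eq] at this
  linarith

/-- the transfer principle -/
theorem enlarge_of_PR {n : ℕ} (b : Fin n → W) (hPR : PR b (fun i => mulL (b i)))
    (hb : Function.Injective (q b)) {S : Set E3} (hS : Set.range (fun a => toR (q b a)) = S)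
    {r : ℝ} {σ : E3 → E3} (hσ : IsSimilarity r σ) : CanBeEnlarged (σ '' S) := by
  subst hS
  obtain ⟨A, v, hA⟩ := hσ.affine
  have hσinj := hσ.injective
  have hrefl : ∀ x y, σ (2 • y - x) = 2 • σ y - σ x := by
    intro x y
    rw [hA, hA, hA, map_sub, map_nsmul, smul_add]
    rw [two_smul ℕ v]
    abel
  obtain ⟨s, hs⟩ := hPR
  let F : W → E3 := fun x => σ (toR x)
  have hF : ∀ x y, F (2 • y - x) = 2 • F y - F x := by
    intro x y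
    simp only [F, toR_sub, hrefl]
  have hFinj : Function.Injective F := hσinj.comp toR_injective
  let f : Fin n × ℤˣ → E3 := fun a => F (q b a)
  have hf : Function.Injective f := hFinj.comp hb
  have hT : σ '' Set.range (fun a => toR (q b a)) = Set.range f := by
    rw [← Set.range_comp]
    rfl
  rw [hT]
  let e : (Fin n × ℤˣ) ≃ Set.range f := Equiv.ofInjective f hf
  let P : Fin n × ℤˣ → E3 := fun a => F (q (fun i => s i • mulL (b i)) a)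
  have hstart : (Subtype.val : Set.range f → E3) = fun t => f (e.symm t) := by
    funext t
    have : (e (e.symm t) : E3) = f (e.symm t) := rfl
    rw [← this, Equiv.apply_symm_apply]
  have hreach : ReflTransGen Move f P :=
    ReflTransGen.lift (fun p : Fin n × ℤˣ → W => fun a => F (p a))
      (fun p p' h => Move.map F hF h) _ _ hs
  have hreach2 : ReflTransGen Move (fun t => f (e.symm t)) (fun t => P (e.symm t)) :=
    ReflTransGen.lift (fun p : Fin n × ℤˣ → E3 => fun t : Set.range f => p (e.symm t))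
      (fun p p' h => Move.relabel e.symm h) _ _ hreach
  have hlam := one_lt_lam
  -- the final similarity
  let τ : E3 → E3 := fun y => lam • y + (1 - lam) • v
  have hτ : ∀ x, σ (lam • x) = τ (σ x) := by
    intro x
    simp only [τ, hA, map_smul, smul_add, sub_smul, one_smul]
    abel
  have hP : ∀ a, P a = τ (F (q (fun i => s i • b i) a)) := by
    intro a
    simp only [P, F, q]
    rw [← hτ]
    simp only [toR_smul, toR_mulL]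
    congr 1
    rw [smul_comm (s a.1) lam, smul_comm a.2 lam]
  have hq : ∀ a : Fin n × ℤˣ, q (fun i => s i • b i) a = q b (a.1, a.2 * s a.1) := by
    intro a
    simp only [q, smul_smul]
  refine ⟨fun t => P (e.symm t), ?_, lam, τ, hlam, ⟨by linarith, ?_⟩, ?_, ?_⟩
  · rw [hstart]
    exact hreach2
  · intro x y
    simp only [τ]
    rw [dist_add_right, dist_smul₀, Real.norm_of_nonneg (by linarith)]
  · have hPinj : Function.Injective P := by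
      intro a a' h
      rw [hP, hP, hq, hq] at h
      have h1 : F (q b (a.1, a.2 * s a.1)) = F (q b (a'.1, a'.2 * s a'.1)) := by
        simp only [τ, add_left_inj] at h
        have hl0 : lam ≠ 0 := by linarith
        exact smul_right_injective E3 hl0 h
      have h2 : (a.1, a.2 * s a.1) = (a'.1, a'.2 * s a'.1) := hb (hFinj h1)
      have h3 : a.1 = a'.1 := (Prod.mk.inj h2).1
      have h4 : a.2 * s a.1 = a'.2 * s a'.1 := (Prod.mk.inj h2).2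
      rw [h3] at h4
      exact Prod.ext h3 (mul_right_cancel h4)
    exact hPinj.comp e.symm.injective
  · ext y
    constructor
    · rintro ⟨t, rfl⟩
      refine ⟨f ((e.symm t).1, (e.symm t).2 * s (e.symm t).1), ⟨_, rfl⟩, ?_⟩
      show τ (F _) = P _
      rw [hP, hq]
    · rintro ⟨_, ⟨⟨i, u⟩, rfl⟩, rfl⟩
      refine ⟨e (i, u * (s i)⁻¹), ?_⟩
      simp only [Equiv.symm_apply_apply]
      rw [hP, hq]
      simp only [f, inv_mul_cancel_right]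

theorem icoInj : Function.Injective (q icoB) := by decide +kernel

theorem dodInj : Function.Injective (q dodB) := by decide +kernel

theorem toR_neg (x : W) : toR ((-1 : ℤˣ) • x) = -toR x := by
  rw [toR_smul, Units.neg_smul, one_smul]

theorem toR_icoB0 : toR (icoB 0) = !₂[0, 1, φ] := by
  ext t; fin_cases t <;> simp [toR, icoB]
theorem toR_icoB1 : toR (icoB 1) = !₂[0, -1, φ] := by
  ext t; fin_cases t <;> simp [toR, icoB]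
theorem toR_icoB2 : toR (icoB 2) = !₂[φ, 0, 1] := by
  ext t; fin_cases t <;> simp [toR, icoB]
theorem toR_icoB3 : toR (icoB 3) = !₂[φ, 0, -1] := by
  ext t; fin_cases t <;> simp [toR, icoB]
theorem toR_icoB4 : toR (icoB 4) = !₂[1, φ, 0] := by
  ext t; fin_cases t <;> simp [toR, icoB]
theorem toR_icoB5 : toR (icoB 5) = !₂[-1, φ, 0] := by
  ext t; fin_cases t <;> simp [toR, icoB]

theorem neg_vec (a b c : ℝ) : -(!₂[a, b, c] : E3) = !₂[-a, -b, -c] := by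
  ext t; fin_cases t <;> simp

theorem icoRange : Set.range (fun a => toR (q icoB a)) = stdIcosahedron := by
  ext x
  constructor
  · rintro ⟨⟨i, u⟩, rfl⟩
    rcases units_cases u with rfl | rfl
    · simp only [q, one_smul]
      fin_cases i
      · exact ⟨1, 1, Or.inl rfl, Or.inl rfl, Or.inl (by simpa using toR_icoB0)⟩
      · exact ⟨-1, 1, Or.inr rfl, Or.inl rfl, Or.inl (by simpa using toR_icoB1)⟩
      · exact ⟨1, 1, Or.inl rfl, Or.inl rfl, Or.inr (Or.inr (by simpa using toR_icoB2))⟩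
      · exact ⟨-1, 1, Or.inr rfl, Or.inl rfl, Or.inr (Or.inr (by simpa using toR_icoB3))⟩
      · exact ⟨1, 1, Or.inl rfl, Or.inl rfl, Or.inr (Or.inl (by simpa using toR_icoB4))⟩
      · exact ⟨-1, 1, Or.inr rfl, Or.inl rfl, Or.inr (Or.inl (by simpa using toR_icoB5))⟩
    · simp only [q, toR_neg]
      fin_cases i
      · exact ⟨-1, -1, Or.inr rfl, Or.inr rfl, Or.inl (by simp [toR_icoB0, neg_vec])⟩
      · exact ⟨1, -1, Or.inl rfl, Or.inr rfl, Or.inl (by simp [toR_icoB1, neg_vec])⟩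
      · exact ⟨-1, -1, Or.inr rfl, Or.inr rfl, Or.inr (Or.inr (by simp [toR_icoB2, neg_vec]))⟩
      · exact ⟨1, -1, Or.inl rfl, Or.inr rfl, Or.inr (Or.inr (by simp [toR_icoB3, neg_vec]))⟩
      · exact ⟨-1, -1, Or.inr rfl, Or.inr rfl, Or.inr (Or.inl (by simp [toR_icoB4, neg_vec]))⟩
      · exact ⟨1, -1, Or.inl rfl, Or.inr rfl, Or.inr (Or.inl (by simp [toR_icoB5, neg_vec]))⟩
  · rintro ⟨s, t, hs, ht, h⟩
    rcases hs with rfl | rfl <;> rcases ht with rfl | rfl <;> rcases h with rfl | rfl | rfl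
    · exact ⟨(0, 1), by simp [q, toR_icoB0]⟩
    · exact ⟨(4, 1), by simp [q, toR_icoB4]⟩
    · exact ⟨(2, 1), by simp [q, toR_icoB2]⟩
    · exact ⟨(1, -1), by simp only [q, toR_neg, toR_icoB1]; simp [neg_vec]⟩
    · exact ⟨(5, -1), by simp only [q, toR_neg, toR_icoB5]; simp [neg_vec]⟩
    · exact ⟨(3, -1), by simp only [q, toR_neg, toR_icoB3]; simp [neg_vec]⟩
    · exact ⟨(1, 1), by simp [q, toR_icoB1]⟩
    · exact ⟨(5, 1), by simp [q, toR_icoB5]⟩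
    · exact ⟨(3, 1), by simp [q, toR_icoB3]⟩
    · exact ⟨(0, -1), by simp only [q, toR_neg, toR_icoB0]; simp [neg_vec]⟩
    · exact ⟨(4, -1), by simp only [q, toR_neg, toR_icoB4]; simp [neg_vec]⟩
    · exact ⟨(2, -1), by simp only [q, toR_neg, toR_icoB2]; simp [neg_vec]⟩

theorem phi_inv : φ⁻¹ = φ - 1 := by
  apply inv_eq_of_mul_eq_one_right
  have h := phi_sq
  linarith [h]

theorem toR_dodB0 : toR (dodB 0) = !₂[1, 1, 1] := by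
  ext t; fin_cases t <;> simp [toR, dodB]
theorem toR_dodB1 : toR (dodB 1) = !₂[1, 1, -1] := by
  ext t; fin_cases t <;> simp [toR, dodB]
theorem toR_dodB2 : toR (dodB 2) = !₂[1, -1, 1] := by
  ext t; fin_cases t <;> simp [toR, dodB]
theorem toR_dodB3 : toR (dodB 3) = !₂[-1, 1, 1] := by
  ext t; fin_cases t <;> simp [toR, dodB]
theorem toR_dodB4 : toR (dodB 4) = !₂[0, φ⁻¹, φ] := by
  ext t; fin_cases t <;> simp [toR, dodB, phi_inv] <;> ring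
theorem toR_dodB5 : toR (dodB 5) = !₂[0, -φ⁻¹, φ] := by
  ext t; fin_cases t <;> simp [toR, dodB, phi_inv] <;> ring
theorem toR_dodB6 : toR (dodB 6) = !₂[φ⁻¹, φ, 0] := by
  ext t; fin_cases t <;> simp [toR, dodB, phi_inv] <;> ring
theorem toR_dodB7 : toR (dodB 7) = !₂[-φ⁻¹, φ, 0] := by
  ext t; fin_cases t <;> simp [toR, dodB, phi_inv] <;> ring
theorem toR_dodB8 : toR (dodB 8) = !₂[φ, 0, φ⁻¹] := by
  ext t; fin_cases t <;> simp [toR, dodB, phi_inv] <;> ring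
theorem toR_dodB9 : toR (dodB 9) = !₂[φ, 0, -φ⁻¹] := by
  ext t; fin_cases t <;> simp [toR, dodB, phi_inv] <;> ring

theorem dodRange : Set.range (fun a => toR (q dodB a)) = stdDodecahedron := by
  ext x
  constructor
  · rintro ⟨⟨i, u⟩, rfl⟩
    rcases units_cases u with rfl | rfl
    · simp only [q, one_smul]
      fin_cases i
      · exact Or.inl ⟨1, 1, 1, Or.inl rfl, Or.inl rfl, Or.inl rfl, by simpa using toR_dodB0⟩
      · exact Or.inl ⟨1, 1, -1, Or.inl rfl, Or.inl rfl, Or.inr rfl, by simpa using toR_dodB1⟩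
      · exact Or.inl ⟨1, -1, 1, Or.inl rfl, Or.inr rfl, Or.inl rfl, by simpa using toR_dodB2⟩
      · exact Or.inl ⟨-1, 1, 1, Or.inr rfl, Or.inl rfl, Or.inl rfl, by simpa using toR_dodB3⟩
      · exact Or.inr ⟨1, 1, Or.inl rfl, Or.inl rfl, Or.inl (by simpa using toR_dodB4)⟩
      · exact Or.inr ⟨-1, 1, Or.inr rfl, Or.inl rfl, Or.inl (by simpa using toR_dodB5)⟩
      · exact Or.inr ⟨1, 1, Or.inl rfl, Or.inl rfl, Or.inr (Or.inl (by simpa using toR_dodB6))⟩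
      · exact Or.inr ⟨-1, 1, Or.inr rfl, Or.inl rfl, Or.inr (Or.inl (by simpa using toR_dodB7))⟩
      · exact Or.inr ⟨1, 1, Or.inl rfl, Or.inl rfl, Or.inr (Or.inr (by simpa using toR_dodB8))⟩
      · exact Or.inr ⟨-1, 1, Or.inr rfl, Or.inl rfl, Or.inr (Or.inr (by simpa using toR_dodB9))⟩
    · simp only [q, toR_neg]
      fin_cases i
      · exact Or.inl ⟨-1, -1, -1, Or.inr rfl, Or.inr rfl, Or.inr rfl, by simp [toR_dodB0, neg_vec]⟩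
      · exact Or.inl ⟨-1, -1, 1, Or.inr rfl, Or.inr rfl, Or.inl rfl, by simp [toR_dodB1, neg_vec]⟩
      · exact Or.inl ⟨-1, 1, -1, Or.inr rfl, Or.inl rfl, Or.inr rfl, by simp [toR_dodB2, neg_vec]⟩
      · exact Or.inl ⟨1, -1, -1, Or.inl rfl, Or.inr rfl, Or.inr rfl, by simp [toR_dodB3, neg_vec]⟩
      · exact Or.inr ⟨-1, -1, Or.inr rfl, Or.inr rfl, Or.inl (by simp [toR_dodB4, neg_vec])⟩
      · exact Or.inr ⟨1, -1, Or.inl rfl, Or.inr rfl, Or.inl (by simp [toR_dodB5, neg_vec])⟩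
      · exact Or.inr ⟨-1, -1, Or.inr rfl, Or.inr rfl, Or.inr (Or.inl (by simp [toR_dodB6, neg_vec]))⟩
      · exact Or.inr ⟨1, -1, Or.inl rfl, Or.inr rfl, Or.inr (Or.inl (by simp [toR_dodB7, neg_vec]))⟩
      · exact Or.inr ⟨-1, -1, Or.inr rfl, Or.inr rfl, Or.inr (Or.inr (by simp [toR_dodB8, neg_vec]))⟩
      · exact Or.inr ⟨1, -1, Or.inl rfl, Or.inr rfl, Or.inr (Or.inr (by simp [toR_dodB9, neg_vec]))⟩
  · rintro (⟨r, s, t, hr, hs, ht, rfl⟩ | ⟨s, t, hs, ht, h⟩)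
    · rcases hr with rfl | rfl <;> rcases hs with rfl | rfl <;> rcases ht with rfl | rfl
      · exact ⟨(0, 1), by simp [q, toR_dodB0]⟩
      · exact ⟨(1, 1), by simp [q, toR_dodB1]⟩
      · exact ⟨(2, 1), by simp [q, toR_dodB2]⟩
      · exact ⟨(3, -1), by simp only [q, toR_neg, toR_dodB3]; simp [neg_vec]⟩
      · exact ⟨(3, 1), by simp [q, toR_dodB3]⟩
      · exact ⟨(2, -1), by simp only [q, toR_neg, toR_dodB2]; simp [neg_vec]⟩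
      · exact ⟨(1, -1), by simp only [q, toR_neg, toR_dodB1]; simp [neg_vec]⟩
      · exact ⟨(0, -1), by simp only [q, toR_neg, toR_dodB0]; simp [neg_vec]⟩
    · rcases hs with rfl | rfl <;> rcases ht with rfl | rfl <;> rcases h with rfl | rfl | rfl
      · exact ⟨(4, 1), by simp [q, toR_dodB4]⟩
      · exact ⟨(6, 1), by simp [q, toR_dodB6]⟩
      · exact ⟨(8, 1), by simp [q, toR_dodB8]⟩
      · exact ⟨(5, -1), by simp only [q, toR_neg, toR_dodB5]; simp [neg_vec]⟩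
      · exact ⟨(7, -1), by simp only [q, toR_neg, toR_dodB7]; simp [neg_vec]⟩
      · exact ⟨(9, -1), by simp only [q, toR_neg, toR_dodB9]; simp [neg_vec]⟩
      · exact ⟨(5, 1), by simp [q, toR_dodB5]⟩
      · exact ⟨(7, 1), by simp [q, toR_dodB7]⟩
      · exact ⟨(9, 1), by simp [q, toR_dodB9]⟩
      · exact ⟨(4, -1), by simp only [q, toR_neg, toR_dodB4]; simp [neg_vec]⟩
      · exact ⟨(6, -1), by simp only [q, toR_neg, toR_dodB6]; simp [neg_vec]⟩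
      · exact ⟨(8, -1), by simp only [q, toR_neg, toR_dodB8]; simp [neg_vec]⟩

/-- **Both solids can be enlarged**: every regular icosahedron and every regular dodecahedron in
`ℝ³` can be enlarged by legal moves. -/
theorem result :
    (∀ T : Set E3, IsRegularIcosahedron T → CanBeEnlarged T) ∧
    (∀ T : Set E3, IsRegularDodecahedron T → CanBeEnlarged T) := by
  constructor
  · rintro T ⟨r, σ, hσ, rfl⟩
    exact enlarge_of_PR icoB icoPR icoInj icoRange hσ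
  · rintro T ⟨r, σ, hσ, rfl⟩
    exact enlarge_of_PR dodB dodPR dodInj dodRange hσ

end Pool.Agent.Results.MP_4a8fbb_co.BothEnlarge
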